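import Mathlib

set_option autoImplicit false

namespace Pool.Agent.Work.MP_75f5df_co

open Cardinal

/-- A subgraph is nonseparable if it is connected and has no cut vertex of its own:
deleting any of its vertices leaves a preconnected graph. -/
def Nonseparable {V : Type} {G : SimpleGraph V} (H : G.Subgraph) : Prop :=
  H.Connected ∧ ∀ v ∈ H.verts, (H.deleteVerts {v}).Preconnected

/-- A block of `G` is a maximal connected subgraph without a cut vertex of its own. -/
def IsBlock {V : Type} {G : SimpleGraph V} (H : G.Subgraph) : Prop :=
  Maximal Nonseparable H

/-- `G` is the tree-like graph `T_{m,n}`: it is connected, every block is a complete graph on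
`n` vertices, and every vertex lies in exactly `m` blocks. -/
structure IsTreeLike {V : Type} (G : SimpleGraph V) (m n : Cardinal.{0}) : Prop where
  connected : G.Connected
  complete : ∀ H : G.Subgraph, IsBlock H →
    ∀ u ∈ H.verts, ∀ v ∈ H.verts, u ≠ v → H.Adj u v
  card_block : ∀ H : G.Subgraph, IsBlock H → #H.verts = n
  card_blocks_at : ∀ v : V, #{H : G.Subgraph // IsBlock H ∧ v ∈ H.verts} = m

/-- The topology of pointwise convergence on the automorphism group of a graph, the vertex set
being discrete. -/
def autTopology {V : Type} (G : SimpleGraph V) : TopologicalSpace (G ≃g G) :=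
  TopologicalSpace.induced (fun (φ : G ≃g G) (v : V) => φ v)
    (@Pi.topologicalSpace V (fun _ => V) (fun _ => (⊥ : TopologicalSpace V)))

/-- A topological group is amenable if every continuous action on a nonempty compact Hausdorff
space admits an invariant Borel probability measure. -/
def IsAmenable (Γ : Type) [Group Γ] [TopologicalSpace Γ] : Prop :=
  ∀ (X : Type) [TopologicalSpace X] [CompactSpace X] [T2Space X] [Nonempty X]
    [MeasurableSpace X] [BorelSpace X] [MulAction Γ X] [ContinuousSMul Γ X],
    ∃ μ : MeasureTheory.Measure X, MeasureTheory.IsProbabilityMeasure μ ∧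
      ∀ g : Γ, μ.map (fun x => g • x) = μ

end Pool.Agent.Work.MP_75f5df_co
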