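import Mathlib

set_option autoImplicit false

namespace Pool.Agent.Work.MP_75f5df_co

open SimpleGraph

variable {V : Type}

/-- `x` and `y` are joined by a walk avoiding `b`. -/
def Av (G : SimpleGraph V) (b x y : V) : Prop := ∃ p : G.Walk x y, b ∉ p.support

namespace Av
variable {G : SimpleGraph V} {b x y z : V}

lemma refl (h : b ≠ x) : Av G b x x := ⟨Walk.nil, by simpa using h⟩

lemma symm (h : Av G b x y) : Av G b y x := by
  obtain ⟨p, hp⟩ := h
  exact ⟨p.reverse, by simpa using hp⟩

lemma trans (h : Av G b x y) (h' : Av G b y z) : Av G b x z := by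
  obtain ⟨p, hp⟩ := h
  obtain ⟨q, hq⟩ := h'
  refine ⟨p.append q, ?_⟩
  rw [Walk.mem_support_append_iff]
  tauto

lemma adj (h : G.Adj x y) (hx : b ≠ x) (hy : b ≠ y) : Av G b x y :=
  ⟨Walk.cons h Walk.nil, by simp [hx, hy]⟩

lemma ne_left (h : Av G b x y) : b ≠ x := by
  obtain ⟨p, hp⟩ := h
  rintro rfl
  exact hp p.start_mem_support

lemma ne_right (h : Av G b x y) : b ≠ y := h.symm.ne_left

end Av

/-- Two neighbours of `v` that are connected off `v` are equal or adjacent. -/
def CutProp (G : SimpleGraph V) : Prop :=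
  ∀ v w w' : V, G.Adj v w → G.Adj v w' → Av G v w w' → w = w' ∨ G.Adj w w'

/-- Abstract form of the tree-like property: blocks at each vertex are labelled by `I`, and the
other vertices of each block by `J`. -/
structure Good (G : SimpleGraph V) (I J : Type) : Prop where
  conn : G.Connected
  cut : CutProp G
  lab : ∀ v : V, ∃ β : I × J ≃ G.neighborSet v,
    ∀ a b, a.1 = b.1 ↔ ((β a : V) = β b ∨ G.Adj (β a) (β b))

section rooted
variable {G : SimpleGraph V}

lemma exists_parent (hc : G.Connected) (r x : V) (hx : x ≠ r) :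
    ∃ p, G.Adj p x ∧ G.dist r p + 1 = G.dist r x := by
  obtain ⟨w, hw⟩ := hc.exists_walk_length_eq_dist x r
  cases w with
  | nil => exact absurd rfl hx
  | @cons _ p _ h q =>
    refine ⟨p, h.symm, ?_⟩
    have h1 : G.dist p r ≤ q.length := dist_le q
    rw [Walk.length_cons] at hw
    rw [dist_comm (u := r), dist_comm (u := r)]
    have h2 : G.dist x r ≤ G.dist p r + 1 := by
      have := hc.dist_triangle (u := x) (v := p) (w := r)
      rw [dist_eq_one_iff_adj.mpr h] at this
      omega
    omega

lemma avoid (hc : G.Connected) (r : V) : ∀ k : ℕ, ∀ a : V, G.dist r a = k → ∀ b : V,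
    k ≤ G.dist r b → b ≠ a → Av G b a r := by
  intro k
  induction k with
  | zero =>
    intro a ha b hb hne
    have : a = r := by
      have := hc.dist_eq_zero_iff.mp ha
      exact this.symm
    subst this
    exact Av.refl hne
  | succ k ih =>
    intro a ha b hb hne
    have har : a ≠ r := by
      rintro rfl
      simp at ha
    obtain ⟨p, hp1, hp2⟩ := exists_parent hc r a har
    have hpb : b ≠ p := by
      rintro rfl
      omega
    exact (Av.adj hp1.symm hne hpb).trans (ih p (by omega) b (by omega) hpb)

lemma dist_adj (hc : G.Connected) (r : V) {x y : V} (h : G.Adj x y) :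
    G.dist r y ≤ G.dist r x + 1 := by
  have := hc.dist_triangle (u := r) (v := x) (w := y)
  rw [dist_eq_one_iff_adj.mpr h] at this
  exact this

lemma sib_parent (hc : G.Connected) (hA : CutProp G) (r : V) {y y' p : V} (hyy : G.Adj y y')
    (hd : G.dist r y = G.dist r y') (hp : G.Adj p y) (hpd : G.dist r p + 1 = G.dist r y) :
    G.Adj p y' := by
  have h1 : Av G y p r := avoid hc r _ p rfl y (by omega) hp.ne'
  have h2 : Av G y y' r := avoid hc r _ y' rfl y (by omega) hyy.ne
  have h3 : Av G y p y' := h1.trans h2.symm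
  rcases hA y p y' hp.symm hyy h3 with h | h
  · subst h; omega
  · exact h

lemma parent_unique (hc : G.Connected) (hA : CutProp G) (r : V) {x y y' : V}
    (hy : G.Adj y x) (hyd : G.dist r y + 1 = G.dist r x)
    (hy' : G.Adj y' x) (hyd' : G.dist r y' + 1 = G.dist r x) : y = y' := by
  by_contra hne
  have h1 : Av G x y r := avoid hc r _ y rfl x (by omega) hy.ne'
  have h2 : Av G x y' r := avoid hc r _ y' rfl x (by omega) hy'.ne'
  have h3 := hA x y y' hy.symm hy'.symm (h1.trans h2.symm)
  rcases h3 with h | h
  · exact hne h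
  · have hyr : y ≠ r := by
      rintro rfl
      have h0 : G.dist y y' = 0 := by
        have : G.dist y y = 0 := dist_self
        omega
      exact hne (hc.dist_eq_zero_iff.mp h0)
    obtain ⟨z, hz1, hz2⟩ := exists_parent hc r y hyr
    have h4 : Av G y z r := avoid hc r _ z rfl y (by omega) hz1.ne'
    have h5 : Av G y y' r := avoid hc r _ y' rfl y (by omega) hne
    have h6 : Av G y y' x := Av.adj hy' hne hy.ne
    have h7 : Av G y z x := (h4.trans h5.symm).trans h6
    rcases hA y z x hz1.symm hy h7 with h8 | h8
    · subst h8; omega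
    · have := dist_adj hc r h8
      omega

end rooted

end Pool.Agent.Work.MP_75f5df_co
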