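import Mathlib
import Pool.Agent.Work.MP_75f5df_co.Defs
import Pool.Agent.Work.MP_75f5df_co.Rooted

set_option autoImplicit false

namespace Pool.Agent.Work.MP_75f5df_co

open SimpleGraph

variable {V : Type} {G : SimpleGraph V}

/-- joined inside `H` by a walk avoiding `x`. -/
def InAv (H : G.Subgraph) (x u v : V) : Prop := ∃ p : G.Walk u v, p.toSubgraph ≤ H ∧ x ∉ p.support

namespace InAv
variable {H K : G.Subgraph} {x u v w : V}

lemma refl (hu : u ∈ H.verts) (h : x ≠ u) : InAv H x u u :=
  ⟨Walk.nil, by simpa using hu, by simpa using h⟩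

lemma symm (h : InAv H x u v) : InAv H x v u := by
  obtain ⟨p, hp, hx⟩ := h
  exact ⟨p.reverse, by simpa using hp, by simpa using hx⟩

lemma trans (h : InAv H x u v) (h' : InAv H x v w) : InAv H x u w := by
  obtain ⟨p, hp, hx⟩ := h
  obtain ⟨q, hq, hx'⟩ := h'
  refine ⟨p.append q, ?_, ?_⟩
  · rw [Walk.toSubgraph_append]
    exact sup_le hp hq
  · rw [Walk.mem_support_append_iff]
    tauto

lemma adj (h : H.Adj u v) (hu : x ≠ u) (hv : x ≠ v) : InAv H x u v :=
  ⟨Walk.cons h.adj_sub Walk.nil, by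
    rw [Walk.toSubgraph_cons_nil_eq_subgraphOfAdj]
    exact subgraphOfAdj_le_of_adj H h, by simp [hu, hv]⟩

lemma mono (hHK : H ≤ K) (h : InAv H x u v) : InAv K x u v := by
  obtain ⟨p, hp, hx⟩ := h
  exact ⟨p, hp.trans hHK, hx⟩

lemma toAv (h : InAv H x u v) : Av G x u v := by
  obtain ⟨p, hp, hx⟩ := h
  exact ⟨p, hx⟩

lemma ne_left (h : InAv H x u v) : x ≠ u := h.toAv.ne_left
lemma ne_right (h : InAv H x u v) : x ≠ v := h.toAv.ne_right

end InAv

lemma support_subset_of_le {H : G.Subgraph} {u v : V} {p : G.Walk u v} (h : p.toSubgraph ≤ H)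
    {y : V} (hy : y ∈ p.support) : y ∈ H.verts :=
  h.1 ((Walk.mem_verts_toSubgraph p).mpr hy)

lemma nonsep_iff (H : G.Subgraph) : Nonseparable H ↔
    H.verts.Nonempty ∧ (∀ u ∈ H.verts, ∀ v ∈ H.verts, ∃ p : G.Walk u v, p.toSubgraph ≤ H) ∧
    (∀ x u v, u ∈ H.verts → v ∈ H.verts → x ≠ u → x ≠ v → InAv H x u v) := by
  unfold Nonseparable
  rw [Subgraph.connected_iff_forall_exists_walk_subgraph]
  constructor
  · rintro ⟨⟨h1, h2⟩, h3⟩
    refine ⟨h1, fun u hu v hv => h2 hu hv, ?_⟩
    intro x u v hu hv hxu hxv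
    by_cases hx : x ∈ H.verts
    · have h4 := h3 x hx
      rw [Subgraph.preconnected_iff_forall_exists_walk_subgraph] at h4
      have hu' : u ∈ (H.deleteVerts {x}).verts := by
        simp [Subgraph.deleteVerts_verts, hu, hxu.symm]
      have hv' : v ∈ (H.deleteVerts {x}).verts := by
        simp [Subgraph.deleteVerts_verts, hv, hxv.symm]
      obtain ⟨p, hp⟩ := h4 hu' hv'
      refine ⟨p, hp.trans Subgraph.deleteVerts_le, ?_⟩
      intro hxp
      have := support_subset_of_le hp hxp
      simp [Subgraph.deleteVerts_verts] at this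
    · obtain ⟨p, hp⟩ := h2 hu hv
      exact ⟨p, hp, fun hxp => hx (support_subset_of_le hp hxp)⟩
  · rintro ⟨h1, h2, h3⟩
    refine ⟨⟨h1, fun hu hv => h2 _ hu _ hv⟩, ?_⟩
    intro x hx
    rw [Subgraph.preconnected_iff_forall_exists_walk_subgraph]
    intro u v hu hv
    rw [Subgraph.deleteVerts_verts, Set.mem_sdiff, Set.mem_singleton_iff] at hu hv
    obtain ⟨p, hp, hxp⟩ := h3 x u v hu.1 hv.1 (Ne.symm hu.2) (Ne.symm hv.2)
    refine ⟨p, ?_, ?_⟩
    · intro y hy
      rw [Walk.mem_verts_toSubgraph] at hy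
      rw [Subgraph.deleteVerts_verts, Set.mem_sdiff, Set.mem_singleton_iff]
      refine ⟨support_subset_of_le hp hy, ?_⟩
      rintro rfl
      exact hxp hy
    · intro a b hab
      rw [Subgraph.deleteVerts_adj]
      have ha := p.mem_support_of_adj_toSubgraph hab
      have hb := p.mem_support_of_adj_toSubgraph hab.symm
      refine ⟨support_subset_of_le hp ha, ?_, support_subset_of_le hp hb, ?_, hp.2 hab⟩
      · rintro rfl; exact hxp ha
      · rintro rfl; exact hxp hb

lemma exists_block (H : G.Subgraph) (h : Nonseparable H) : ∃ K, H ≤ K ∧ IsBlock K := by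
  have := zorn_le_nonempty₀ {K : G.Subgraph | Nonseparable K} ?_ H h
  · obtain ⟨m, hm1, hm2⟩ := this
    exact ⟨m, hm1, hm2⟩
  · intro c hc hchain y hy
    refine ⟨sSup c, ?_, fun z hz => le_sSup hz⟩
    change Nonseparable _
    rw [nonsep_iff]
    have key : ∀ u v, u ∈ (sSup c).verts → v ∈ (sSup c).verts →
        ∃ K ∈ c, u ∈ K.verts ∧ v ∈ K.verts := by
      intro u v hu hv
      simp only [Subgraph.verts_sSup, Set.mem_iUnion] at hu hv
      obtain ⟨K1, hK1, hu⟩ := hu
      obtain ⟨K2, hK2, hv⟩ := hv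
      rcases hchain.total hK1 hK2 with h | h
      · exact ⟨K2, hK2, h.1 hu, hv⟩
      · exact ⟨K1, hK1, hu, h.1 hv⟩
    refine ⟨?_, ?_, ?_⟩
    · have h1 := ((nonsep_iff y).mp (hc hy)).1
      obtain ⟨z, hz⟩ := h1
      exact ⟨z, (le_sSup hy).1 hz⟩
    · intro u hu v hv
      obtain ⟨K, hK, hu', hv'⟩ := key u v hu hv
      obtain ⟨p, hp⟩ := ((nonsep_iff K).mp (hc hK)).2.1 u hu' v hv'
      exact ⟨p, hp.trans (le_sSup hK)⟩
    · intro x u v hu hv hxu hxv
      obtain ⟨K, hK, hu', hv'⟩ := key u v hu hv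
      exact (((nonsep_iff K).mp (hc hK)).2.2 x u v hu' hv' hxu hxv).mono (le_sSup hK)

lemma path_split {w w' : V} (p : G.Walk w w') : p.IsPath → ∀ x u, u ∈ p.support → x ≠ u →
    InAv p.toSubgraph x u w ∨ InAv p.toSubgraph x u w' := by
  induction p with
  | nil =>
    intro _ x u hu hx
    rw [Walk.support_nil, List.mem_singleton] at hu
    subst hu
    exact Or.inl (InAv.refl (by simp) hx)
  | @cons a b c h q ih =>
    intro hp x u hu hx
    rw [Walk.cons_isPath_iff] at hp
    have hle : q.toSubgraph ≤ (Walk.cons h q).toSubgraph := by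
      rw [Walk.toSubgraph]
      exact le_sup_right
    have hadj : (Walk.cons h q).toSubgraph.Adj b a := by
      rw [Walk.toSubgraph]
      simp
    rw [Walk.support_cons, List.mem_cons] at hu
    rcases hu with hu | hu
    · subst hu
      exact Or.inl (InAv.refl (by simp) hx)
    · by_cases hxa : x = a
      · subst hxa
        right
        have hconn := q.toSubgraph_connected
        rw [Subgraph.connected_iff_forall_exists_walk_subgraph] at hconn
        obtain ⟨r, hr⟩ := hconn.2 ((Walk.mem_verts_toSubgraph q).mpr hu)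
          ((Walk.mem_verts_toSubgraph q).mpr q.end_mem_support)
        refine ⟨r, hr.trans hle, ?_⟩
        intro hxr
        exact hp.2 ((Walk.mem_verts_toSubgraph q).mp (support_subset_of_le hr hxr))
      · rcases ih hp.1 x u hu hx with h1 | h1
        · left
          exact (h1.mono hle).trans (InAv.adj hadj h1.ne_right hxa)
        · right
          exact h1.mono hle

lemma cycle_nonsep {v w w' : V} (h : G.Adj v w) (h' : G.Adj v w') (p : G.Walk w w')
    (hp : p.IsPath) (hv : v ∉ p.support) :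
    ∃ H : G.Subgraph, Nonseparable H ∧ v ∈ H.verts ∧ w ∈ H.verts ∧ w' ∈ H.verts := by
  set H : G.Subgraph := p.toSubgraph ⊔ (G.subgraphOfAdj h ⊔ G.subgraphOfAdj h') with hH
  have hle : p.toSubgraph ≤ H := le_sup_left
  have a1 : H.Adj v w := by simp [hH]
  have a2 : H.Adj v w' := by simp [hH]
  have hverts : ∀ u, u ∈ H.verts → u = v ∨ u ∈ p.support := by
    intro u hu
    simp only [hH, Subgraph.verts_sup, Set.mem_union, Walk.mem_verts_toSubgraph,
      subgraphOfAdj_verts, Set.mem_insert_iff, Set.mem_singleton_iff] at hu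
    rcases hu with hu | ((hu | hu) | (hu | hu))
    · exact Or.inr hu
    · exact Or.inl hu
    · exact Or.inr (hu ▸ p.start_mem_support)
    · exact Or.inl hu
    · exact Or.inr (hu ▸ p.end_mem_support)
  have hconnp := p.toSubgraph_connected
  rw [Subgraph.connected_iff_forall_exists_walk_subgraph] at hconnp
  refine ⟨H, ?_, H.edge_vert a1, H.edge_vert a1.symm, H.edge_vert a2.symm⟩
  rw [nonsep_iff]
  refine ⟨⟨v, H.edge_vert a1⟩, ?_, ?_⟩
  · have key : ∀ u ∈ H.verts, ∃ q : G.Walk u v, q.toSubgraph ≤ H := by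
      intro u hu
      rcases hverts u hu with rfl | hu'
      · exact ⟨Walk.nil, by simpa using hu⟩
      · obtain ⟨r, hr⟩ := hconnp.2 ((Walk.mem_verts_toSubgraph p).mpr hu')
          ((Walk.mem_verts_toSubgraph p).mpr p.start_mem_support)
        refine ⟨r.append (Walk.cons h.symm Walk.nil), ?_⟩
        rw [Walk.toSubgraph_append, Walk.toSubgraph_cons_nil_eq_subgraphOfAdj]
        exact sup_le (hr.trans hle) (subgraphOfAdj_le_of_adj H a1.symm)
    intro u hu u' hu'
    obtain ⟨q, hq⟩ := key u hu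
    obtain ⟨q', hq'⟩ := key u' hu'
    refine ⟨q.append q'.reverse, ?_⟩
    rw [Walk.toSubgraph_append, Walk.toSubgraph_reverse]
    exact sup_le hq hq'
  · intro x u u' hu hu' hxu hxu'
    by_cases hxv : x = v
    · subst hxv
      have hu1 : u ∈ p.support := (hverts u hu).resolve_left hxu.symm
      have hu2 : u' ∈ p.support := (hverts u' hu').resolve_left hxu'.symm
      obtain ⟨r, hr⟩ := hconnp.2 ((Walk.mem_verts_toSubgraph p).mpr hu1)
          ((Walk.mem_verts_toSubgraph p).mpr hu2)
      refine ⟨r, hr.trans hle, ?_⟩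
      intro hxr
      exact hv ((Walk.mem_verts_toSubgraph p).mp (support_subset_of_le hr hxr))
    · have key : ∀ u ∈ H.verts, x ≠ u → InAv H x u v := by
        intro u hu hxu
        rcases hverts u hu with rfl | hu'
        · exact InAv.refl hu hxu
        · rcases path_split p hp x u hu' hxu with h1 | h1
          · exact (h1.mono hle).trans (InAv.adj a1.symm h1.ne_right hxv)
          · exact (h1.mono hle).trans (InAv.adj a2.symm h1.ne_right hxv)
      exact (key u hu hxu).trans (key u' hu' hxu').symm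

lemma cutProp_of_complete (hcomp : ∀ H : G.Subgraph, IsBlock H →
    ∀ u ∈ H.verts, ∀ v ∈ H.verts, u ≠ v → H.Adj u v) : CutProp G := by
  classical
  intro v w w' h h' hav
  by_cases hww : w = w'
  · exact Or.inl hww
  right
  obtain ⟨p, hp⟩ := hav
  have hq : v ∉ p.bypass.support := fun hh => hp (p.support_bypass_subset_support hh)
  obtain ⟨H, hH, h1, h2, h3⟩ := cycle_nonsep h h' p.bypass p.bypass_isPath hq
  obtain ⟨K, hK1, hK2⟩ := exists_block H hH
  exact (hcomp K hK2 w (hK1.1 h2) w' (hK1.1 h3) hww).adj_sub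

lemma nonsep_clique (hA : CutProp G) (H : G.Subgraph) (hH : Nonseparable H) :
    ∀ u ∈ H.verts, ∀ v ∈ H.verts, u = v ∨ G.Adj u v := by
  rw [nonsep_iff] at hH
  have key : ∀ u v (q : G.Walk u v), q.toSubgraph ≤ H → u = v ∨ G.Adj u v := by
    intro u v q
    induction q with
    | nil => intro _; exact Or.inl rfl
    | @cons a b c h q ih =>
      intro hle
      have hle' : q.toSubgraph ≤ H := by
        refine le_trans ?_ hle
        rw [Walk.toSubgraph]
        exact le_sup_right
      have ha : a ∈ H.verts := support_subset_of_le hle (by simp)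
      have hc : c ∈ H.verts := support_subset_of_le hle (by simp)
      rcases ih hle' with h1 | h1
      · subst h1; exact Or.inr h
      · by_cases hac : a = c
        · exact Or.inl hac
        · have := hH.2.2 b a c ha hc h.ne' h1.ne
          exact hA b a c h.symm h1 this.toAv
  intro u hu v hv
  obtain ⟨p, hp⟩ := hH.2.1 u hu v hv
  exact key u v p hp

lemma clique_nonsep (K : Set V) (hne : K.Nonempty)
    (hK : ∀ u ∈ K, ∀ v ∈ K, u = v ∨ G.Adj u v) : Nonseparable ((⊤ : G.Subgraph).induce K) := by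
  rw [nonsep_iff]
  have hadj : ∀ u ∈ K, ∀ v ∈ K, u ≠ v → ((⊤ : G.Subgraph).induce K).Adj u v := by
    intro u hu v hv huv
    rw [Subgraph.induce_adj]
    exact ⟨hu, hv, (hK u hu v hv).resolve_left huv⟩
  refine ⟨hne, ?_, ?_⟩
  · intro u hu v hv
    by_cases huv : u = v
    · subst huv
      exact ⟨Walk.nil, by simpa using hu⟩
    · have := hadj u hu v hv huv
      refine ⟨Walk.cons this.adj_sub Walk.nil, ?_⟩
      rw [Walk.toSubgraph_cons_nil_eq_subgraphOfAdj]
      exact subgraphOfAdj_le_of_adj _ this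
  · intro x u v hu hv hxu hxv
    by_cases huv : u = v
    · subst huv
      exact InAv.refl hu hxu
    · exact InAv.adj (hadj u hu v hv huv) hxu hxv

lemma le_induce_of_subset (H : G.Subgraph) (K : Set V) (h : H.verts ⊆ K) :
    H ≤ (⊤ : G.Subgraph).induce K := by
  refine ⟨h, ?_⟩
  intro a b hab
  rw [Subgraph.induce_adj]
  exact ⟨h (H.edge_vert hab), h (H.edge_vert hab.symm), hab.adj_sub⟩

/-- Two blocks at `v` containing equal or adjacent other vertices coincide. -/
lemma block_eq (hA : CutProp G) (H H' : G.Subgraph) (hH : IsBlock H) (hH' : IsBlock H')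
    (v w w' : V) (hv : v ∈ H.verts) (hv' : v ∈ H'.verts) (hw : w ∈ H.verts) (hw' : w' ∈ H'.verts)
    (hvw : v ≠ w) (hvw' : v ≠ w') (hww : w = w' ∨ G.Adj w w') : H = H' := by
  have c1 := nonsep_clique hA H hH.1
  have c2 := nonsep_clique hA H' hH'.1
  have av : ∀ x y, v ≠ x → v ≠ y → (x = y ∨ G.Adj x y) → Av G v x y := by
    intro x y hx hy hxy
    rcases hxy with rfl | hxy
    · exact Av.refl hx
    · exact Av.adj hxy hx hy
  have cross : ∀ x ∈ H.verts, ∀ y ∈ H'.verts, x = y ∨ G.Adj x y := by
    intro x hx y hy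
    by_cases hxv : v = x
    · subst hxv
      exact c2 _ hv' y hy
    by_cases hyv : v = y
    · subst hyv
      exact c1 x hx _ hv
    have h1 := av x w hxv hvw (c1 x hx w hw)
    have h2 := av w w' hvw hvw' hww
    have h3 := av w' y hvw' hyv (c2 w' hw' y hy)
    exact hA v x y ((c1 v hv x hx).resolve_left hxv) ((c2 v hv' y hy).resolve_left hyv)
      ((h1.trans h2).trans h3)
  have hK : Nonseparable ((⊤ : G.Subgraph).induce (H.verts ∪ H'.verts)) := by
    apply clique_nonsep
    · exact ⟨v, Or.inl hv⟩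
    · rintro x (hx | hx) y (hy | hy)
      · exact c1 x hx y hy
      · exact cross x hx y hy
      · rcases cross y hy x hx with h | h
        · exact Or.inl h.symm
        · exact Or.inr h.symm
      · exact c2 x hx y hy
  have l1 := le_induce_of_subset H (H.verts ∪ H'.verts) Set.subset_union_left
  have l2 := le_induce_of_subset H' (H.verts ∪ H'.verts) Set.subset_union_right
  have e1 := le_antisymm l1 (hH.2 hK l1)
  have e2 := le_antisymm l2 (hH'.2 hK l2)
  exact e1.trans e2.symm

end Pool.Agent.Work.MP_75f5df_co
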