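import Mathlib
import Pool.Agent.Work.MP_75f5df_co.Blocks

set_option autoImplicit false

namespace Pool.Agent.Work.MP_75f5df_co

open SimpleGraph Cardinal

variable {V : Type} {G : SimpleGraph V}

lemma edge_in_block {v w : V} (h : G.Adj v w) :
    ∃ H : G.Subgraph, IsBlock H ∧ v ∈ H.verts ∧ w ∈ H.verts := by
  have hc : Nonseparable ((⊤ : G.Subgraph).induce {v, w}) := by
    apply clique_nonsep
    · exact ⟨v, by simp⟩
    · intro x hx y hy
      simp only [Set.mem_insert_iff, Set.mem_singleton_iff] at hx hy
      rcases hx with rfl | rfl <;> rcases hy with rfl | rfl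
      · exact Or.inl rfl
      · exact Or.inr h
      · exact Or.inr h.symm
      · exact Or.inl rfl
  obtain ⟨K, hK1, hK2⟩ := exists_block _ hc
  exact ⟨K, hK2, hK1.1 (by simp), hK1.1 (by simp)⟩

/-- A tree-like graph is good. -/
theorem good_of_treeLike {m n : Cardinal.{0}} {I J : Type} (hI : #I = m) (hJ : #J + 1 = n)
    (hG : IsTreeLike G m n) : Good G I J := by
  classical
  have hA : CutProp G := cutProp_of_complete hG.complete
  refine ⟨hG.connected, hA, ?_⟩
  intro v
  have hc1 : #I = #{H : G.Subgraph // IsBlock H ∧ v ∈ H.verts} := by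
    rw [hI, hG.card_blocks_at v]
  obtain ⟨e⟩ := Cardinal.eq.mp hc1
  have hc2 : ∀ i : I, Nonempty (J ≃ {w : V // w ∈ (e i).1.verts ∧ w ≠ v}) := by
    intro i
    have h1 : #((e i).1.verts) = n := hG.card_block _ (e i).2.1
    have h2 : #((e i).1.verts) = #{w : V // w ∈ (e i).1.verts ∧ w ≠ v} + 1 := by
      have e1 : ((e i).1.verts) ≃ Option {w : V // w ∈ (e i).1.verts ∧ w ≠ v} :=
        { toFun := fun w => if h : (w : V) = v then none else some ⟨w, w.2, h⟩
          invFun := fun o => match o with
            | none => ⟨v, (e i).2.2⟩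
            | some w => ⟨w.1, w.2.1⟩
          left_inv := by
            intro w
            by_cases h : (w : V) = v
            · simp only [h, dite_true]
              exact Subtype.ext h.symm
            · simp only [h, dite_false]
          right_inv := by
            intro o
            cases o with
            | none => simp
            | some w => simp [w.2.2] }
      rw [Cardinal.mk_congr e1, Cardinal.mk_option]
    have h3 : #J + 1 = #{w : V // w ∈ (e i).1.verts ∧ w ≠ v} + 1 := by
      rw [hJ, ← h1, h2]
    have h4 : #J = #{w : V // w ∈ (e i).1.verts ∧ w ≠ v} := Cardinal.add_one_inj.mp h3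
    exact Cardinal.eq.mp h4
  have f := fun i => Classical.choice (hc2 i)
  -- adjacency to v
  have hadj : ∀ i j, G.Adj v (f i j).1 := by
    intro i j
    exact (hG.complete _ (e i).2.1 v (e i).2.2 _ (f i j).2.1 (Ne.symm (f i j).2.2)).adj_sub
  have hsame : ∀ i i' j j', ((f i j).1 = (f i' j').1 ∨ G.Adj (f i j).1 (f i' j').1) → i = i' := by
    intro i i' j j' h
    apply e.injective
    apply Subtype.ext
    exact block_eq hA _ _ (e i).2.1 (e i').2.1 v _ _ (e i).2.2 (e i').2.2 (f i j).2.1
      (f i' j').2.1 (Ne.symm (f i j).2.2) (Ne.symm (f i' j').2.2) h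
  let g : I × J → G.neighborSet v := fun a => ⟨(f a.1 a.2).1, hadj a.1 a.2⟩
  have hbij : Function.Bijective g := by
    constructor
    · rintro ⟨i, j⟩ ⟨i', j'⟩ h
      have h1 : (f i j).1 = (f i' j').1 := congrArg Subtype.val h
      have h2 := hsame i i' j j' (Or.inl h1)
      subst h2
      have h3 := (f i).injective (Subtype.ext h1)
      rw [h3]
    · rintro ⟨w, hw⟩
      obtain ⟨K, hK, hvK, hwK⟩ := edge_in_block hw
      set i := e.symm ⟨K, hK, hvK⟩ with hi
      have hei : e i = ⟨K, hK, hvK⟩ := by rw [hi, Equiv.apply_symm_apply]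
      have hwi : w ∈ (e i).1.verts ∧ w ≠ v := by
        rw [hei]; exact ⟨hwK, hw.ne'⟩
      refine ⟨(i, (f i).symm ⟨w, hwi⟩), ?_⟩
      apply Subtype.ext
      simp [g]
  refine ⟨Equiv.ofBijective g hbij, ?_⟩
  rintro ⟨i, j⟩ ⟨i', j'⟩
  simp only [Equiv.ofBijective_apply]
  constructor
  · intro h
    subst h
    by_cases hjj : (f i j).1 = (f i j').1
    · exact Or.inl hjj
    · right
      exact (hG.complete _ (e i).2.1 _ (f i j).2.1 _ (f i j').2.1 hjj).adj_sub
  · intro h
    exact hsame i i' j j' h

/-- A good graph is tree-like. -/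
theorem treeLike_of_good {m n : Cardinal.{0}} {I J : Type} [Nonempty I] [Nonempty J]
    (hI : #I = m) (hJ : #J + 1 = n)
    (hG : Good G I J) : IsTreeLike G m n := by
  classical
  have hA := hG.cut
  choose β hβ using hG.lab
  -- the clique at `v` of colour `i`
  let K : V → I → Set V := fun v i => {u | u = v ∨ ∃ j, (β v (i, j) : V) = u}
  have hKclique : ∀ v i, ∀ x ∈ K v i, ∀ y ∈ K v i, x = y ∨ G.Adj x y := by
    rintro v i x (rfl | ⟨j, rfl⟩) y (rfl | ⟨j', rfl⟩)
    · exact Or.inl rfl
    · exact Or.inr (β _ (i, j')).2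
    · exact Or.inr (β _ (i, j)).2.symm
    · exact (hβ v (i, j) (i, j')).mp rfl
  have hKmem : ∀ v i, v ∈ K v i := fun v i => Or.inl rfl
  let B : V → I → G.Subgraph := fun v i => (⊤ : G.Subgraph).induce (K v i)
  have hBverts : ∀ v i, (B v i).verts = K v i := fun v i => rfl
  have hBn : ∀ v i, Nonseparable (B v i) := fun v i =>
    clique_nonsep _ ⟨v, hKmem v i⟩ (hKclique v i)
  -- any nonseparable subgraph containing v and a neighbour of colour i is inside B v i
  have hsub : ∀ (H : G.Subgraph), Nonseparable H → ∀ v i j, v ∈ H.verts →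
      (β v (i, j) : V) ∈ H.verts → H ≤ B v i := by
    intro H hH v i j hv hw
    apply le_induce_of_subset
    intro y hy
    have c := nonsep_clique hA H hH
    by_cases hyv : v = y
    · exact Or.inl hyv.symm
    · have hvy : G.Adj v y := (c v hv y hy).resolve_left hyv
      set a := (β v).symm ⟨y, hvy⟩ with ha
      have hay : (β v a : V) = y := by rw [ha, Equiv.apply_symm_apply]
      have h1 : (i, j).1 = a.1 := by
        rw [hβ v (i, j) a, hay]
        exact c _ hw y hy
      right
      refine ⟨a.2, ?_⟩
      have : (i, a.2) = a := by ext <;> simp [← h1]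
      rw [this, hay]
  have hBblock : ∀ v i, IsBlock (B v i) := by
    intro v i
    refine ⟨hBn v i, ?_⟩
    intro H hH hle
    obtain ⟨j⟩ := ‹Nonempty J›
    exact hsub H hH v i j (hle.1 (hKmem v i)) (hle.1 (Or.inr ⟨j, rfl⟩))
  have hblock : ∀ (H : G.Subgraph), IsBlock H → ∀ v ∈ H.verts, ∃ i, H = B v i := by
    intro H hH v hv
    have c := nonsep_clique hA H hH.1
    by_cases hex : ∃ w ∈ H.verts, w ≠ v
    · obtain ⟨w, hw, hwv⟩ := hex
      have hvw : G.Adj v w := (c v hv w hw).resolve_left (Ne.symm hwv)
      set a := (β v).symm ⟨w, hvw⟩ with ha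
      have haw : (β v a : V) = w := by rw [ha, Equiv.apply_symm_apply]
      have hle : H ≤ B v a.1 := hsub H hH.1 v a.1 a.2 hv (by rw [Prod.mk.eta, haw]; exact hw)
      exact ⟨a.1, le_antisymm hle (hH.2 (hBn v a.1) hle)⟩
    · push Not at hex
      obtain ⟨i⟩ := ‹Nonempty I›
      have hle : H ≤ B v i := by
        apply le_induce_of_subset
        intro y hy
        exact Or.inl (hex y hy)
      exact ⟨i, le_antisymm hle (hH.2 (hBn v i) hle)⟩
  refine ⟨hG.conn, ?_, ?_, ?_⟩
  · intro H hH u hu v hv huv
    obtain ⟨i, rfl⟩ := hblock H hH u hu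
    change ((⊤ : G.Subgraph).induce (K u i)).Adj u v
    rw [Subgraph.induce_adj]
    exact ⟨hu, hv, (hKclique u i u hu v hv).resolve_left huv⟩
  · intro H hH
    obtain ⟨v, hv⟩ := ((nonsep_iff H).mp hH.1).1
    obtain ⟨i, rfl⟩ := hblock H hH v hv
    have e1 : Option J ≃ (B v i).verts :=
      { toFun := fun o => match o with
          | none => ⟨v, hKmem v i⟩
          | some j => ⟨(β v (i, j)).1, Or.inr ⟨j, rfl⟩⟩
        invFun := fun u => if h : (u : V) = v then none else
          some ((β v).symm ⟨u.1, by
            rcases u.2 with h' | ⟨j, h'⟩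
            · exact absurd h' h
            · rw [← h']; exact (β v (i, j)).2⟩).2
        left_inv := by
          intro o
          cases o with
          | none => simp
          | some j =>
            have : (β v (i, j) : V) ≠ v := (β v (i, j)).2.ne'
            simp [this]
        right_inv := by
          rintro ⟨u, hu⟩
          by_cases h : u = v
          · subst h; simp
          · simp only [h, dite_false]
            apply Subtype.ext
            rcases hu with hu | ⟨j, hu⟩
            · exact absurd hu h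
            · subst hu
              simp }
    rw [← Cardinal.mk_congr e1, Cardinal.mk_option, hJ]
  · intro v
    have e1 : I ≃ {H : G.Subgraph // IsBlock H ∧ v ∈ H.verts} := by
      refine Equiv.ofBijective (fun i => ⟨B v i, hBblock v i, hKmem v i⟩) ⟨?_, ?_⟩
      · intro i i' h
        have h1 : B v i = B v i' := congrArg Subtype.val h
        obtain ⟨j⟩ := ‹Nonempty J›
        have h2 : (β v (i, j) : V) ∈ (B v i').verts := by
          rw [← h1]; exact Or.inr ⟨j, rfl⟩
        rcases h2 with h2 | ⟨j', h2⟩
        · exact absurd h2 (β v (i, j)).2.ne'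
        · have := (β v).injective (Subtype.ext h2)
          exact (congrArg Prod.fst this).symm
      · rintro ⟨H, hH, hv⟩
        obtain ⟨i, hi⟩ := hblock H hH v hv
        exact ⟨i, Subtype.ext hi.symm⟩
    rw [← Cardinal.mk_congr e1, hI]

end Pool.Agent.Work.MP_75f5df_co
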