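import Mathlib
import Pool.Agent.Work.MP_75f5df_co.Rooted

set_option autoImplicit false

namespace Pool.Agent.Work.MP_75f5df_co

open SimpleGraph

variable {V : Type} {I J : Type}

/-- valid words: consecutive letters have different `I`-labels -/
def Valid : List (I × J) → Prop
  | [] => True
  | (a :: l) => (∀ b : I × J, l.head? = some b → a.1 ≠ b.1) ∧ Valid l

/-- The word model of the tree-like graph. -/
def ListG (I J : Type) : SimpleGraph {l : List (I × J) // Valid l} where
  Adj l l' := (∃ a, l'.1 = a :: l.1) ∨ (∃ a, l.1 = a :: l'.1) ∨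
    (∃ a b t, l.1 = a :: t ∧ l'.1 = b :: t ∧ a.1 = b.1 ∧ a ≠ b)
  symm := ⟨by
    rintro l l' (h | h | ⟨a, b, t, h1, h2, h3, h4⟩)
    · exact Or.inr (Or.inl h)
    · exact Or.inl h
    · exact Or.inr (Or.inr ⟨b, a, t, h2, h1, h3.symm, h4.symm⟩)⟩
  loopless := ⟨by
    rintro l (⟨a, h⟩ | ⟨a, h⟩ | ⟨a, b, t, h1, h2, h3, h4⟩)
    · have := congrArg List.length h
      simp at this
    · have := congrArg List.length h
      simp at this
    · rw [h1] at h2
      exact h4 (List.cons.inj h2).1⟩

section
variable {G : SimpleGraph V}

lemma lab_with (hG : Good G I J) (x w : V) (h : G.Adj x w) (a0 : I × J) :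
    ∃ β : I × J ≃ G.neighborSet x,
      (∀ a b, a.1 = b.1 ↔ ((β a : V) = β b ∨ G.Adj (β a) (β b))) ∧ (β a0 : V) = w := by
  classical
  obtain ⟨β, hβ⟩ := hG.lab x
  set a1 := β.symm ⟨w, h⟩ with ha1
  refine ⟨(Equiv.prodCongr (Equiv.swap a0.1 a1.1) (Equiv.swap a0.2 a1.2)).trans β, ?_, ?_⟩
  · intro a b
    simp only [Equiv.trans_apply]
    rw [← hβ]
    simp
  · simp only [Equiv.trans_apply, Equiv.prodCongr_apply, Prod.map, Equiv.swap_apply_left]
    have : (a1.1, a1.2) = a1 := rfl
    rw [this, ha1, Equiv.apply_symm_apply]

lemma lab_nonroot (hG : Good G I J) (r x : V) (hx : x ≠ r) (i0 : I) :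
    ∃ β : I × J ≃ G.neighborSet x,
      (∀ a b, a.1 = b.1 ↔ ((β a : V) = β b ∨ G.Adj (β a) (β b))) ∧
      ∀ a, a.1 ≠ i0 ↔ G.dist r (β a) = G.dist r x + 1 := by
  obtain ⟨p, hp, hpd⟩ := exists_parent hG.conn r x hx
  obtain ⟨β0, -⟩ := hG.lab x
  set j := (β0.symm ⟨p, hp.symm⟩).2 with hj
  obtain ⟨β, hβ, hβp⟩ := lab_with hG x p hp.symm (i0, j)
  refine ⟨β, hβ, ?_⟩
  intro a
  have h1 : a.1 = i0 ↔ ((β a : V) = p ∨ G.Adj (β a) p) := by
    have := hβ a (i0, j)
    rw [hβp] at this
    exact this
  rw [ne_eq, h1]
  have hadj : G.Adj x (β a) := (β a).2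
  have hle := dist_adj hG.conn r hadj
  have hle' := dist_adj hG.conn r hadj.symm
  constructor
  · intro hn
    push Not at hn
    by_contra hd
    rcases Nat.lt_or_ge (G.dist r (β a)) (G.dist r x) with hlt | hge
    · exact hn.1 (parent_unique hG.conn hG.cut r hadj.symm (by omega) hp hpd)
    · have : G.Adj p (β a) := sib_parent hG.conn hG.cut r hadj (by omega) hp hpd
      exact hn.2 this.symm
  · rintro hd (h | h)
    · rw [h] at hd; omega
    · have := dist_adj hG.conn r h.symm
      omega

/-- unfold words into vertices -/
noncomputable def unf (r : V) (next : Option I → V → I × J → V) : List (I × J) → V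
  | [] => r
  | (a :: l) => next (l.head?.map Prod.fst) (unf r next l) a

theorem exists_iso (hG : Good G I J) (r w : V) (h : G.Adj r w) (a0 : I × J) :
    ∃ Φ : ListG I J ≃g G, Φ ⟨[], trivial⟩ = r ∧ Φ ⟨[a0], by simp [Valid]⟩ = w := by
  classical
  have hroot := lab_with hG r w h a0
  obtain ⟨βr, hβr, hβr0⟩ := hroot
  have hnr := fun (x : V) (hx : x ≠ r) (i0 : I) => lab_nonroot hG r x hx i0
  choose βn hβn1 hβn2 using hnr
  obtain ⟨next, next_none, next_some⟩ : ∃ next : Option I → V → I × J → V,
      (∀ x a, next none x a = βr a) ∧
      (∀ (i0 : I) (x : V) (hx : x ≠ r) a, next (some i0) x a = βn x hx i0 a) := by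
    refine ⟨fun o x a =>
      match o with
      | none => βr a
      | some i0 => if hx : x = r then r else βn x hx i0 a, fun x a => rfl, ?_⟩
    intro i0 x hx a
    simp [hx]
  obtain ⟨Φ, Φnil, Φcons⟩ : ∃ Φ : List (I × J) → V, Φ [] = r ∧
      ∀ a l, Φ (a :: l) = next (l.head?.map Prod.fst) (Φ l) a :=
    ⟨unf r next, rfl, fun a l => rfl⟩
  have hconn := hG.conn
  have hcut := hG.cut
  -- distance
  have hdist : ∀ l : List (I × J), Valid l → G.dist r (Φ l) = l.length := by
    intro l
    induction l with
    | nil => intro _; rw [Φnil]; simp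
    | cons a t ih =>
      intro hv
      have iht := ih hv.2
      rw [Φcons, List.length_cons]
      cases t with
      | nil =>
        rw [List.head?_nil, Option.map_none, next_none]
        have : G.Adj r (βr a) := (βr a).2
        rw [dist_eq_one_iff_adj.mpr this]
        simp
      | cons b t' =>
        have hx : Φ (b :: t') ≠ r := by
          intro he
          rw [he] at iht
          simp at iht
        rw [List.head?_cons, Option.map_some, next_some _ _ hx]
        have h1 : a.1 ≠ b.1 := hv.1 b rfl
        have := (hβn2 (Φ (b :: t')) hx b.1 a).mp h1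
        rw [this, iht]
  have hadjc : ∀ (a : I × J) (t : List (I × J)), Valid (a :: t) → G.Adj (Φ t) (Φ (a :: t)) := by
    intro a t hv
    rw [Φcons]
    cases t with
    | nil =>
      rw [List.head?_nil, Option.map_none, next_none, Φnil]
      exact (βr a).2
    | cons b t' =>
      have hx : Φ (b :: t') ≠ r := by
        intro he
        have := hdist _ hv.2
        rw [he] at this
        simp at this
      rw [List.head?_cons, Option.map_some, next_some _ _ hx]
      exact (βn (Φ (b :: t')) hx b.1 a).2
  -- the letters
  have hletter : ∀ (a b : I × J) (t : List (I × J)), Valid (a :: t) → Valid (b :: t) →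
      (Φ (a :: t) = Φ (b :: t) → a = b) ∧
      (a.1 = b.1 ↔ (Φ (a :: t) = Φ (b :: t) ∨ G.Adj (Φ (a :: t)) (Φ (b :: t)))) := by
    intro a b t ha hb
    cases t with
    | nil =>
      rw [Φcons, Φcons b, List.head?_nil, Option.map_none, next_none, next_none]
      refine ⟨fun he => βr.injective (Subtype.ext he), hβr a b⟩
    | cons c t' =>
      have hx : Φ (c :: t') ≠ r := by
        intro he
        have := hdist _ ha.2
        rw [he] at this
        simp at this
      rw [Φcons a (c :: t'), Φcons b (c :: t'), List.head?_cons, Option.map_some,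
        next_some _ _ hx, next_some _ _ hx]
      exact ⟨fun he => (βn (Φ (c :: t')) hx c.1).injective (Subtype.ext he),
        hβn1 (Φ (c :: t')) hx c.1 a b⟩
  have hinj : ∀ l l' : List (I × J), Valid l → Valid l' → Φ l = Φ l' → l = l' := by
    intro l
    induction l with
    | nil =>
      intro l' hv hv' he
      have h1 := hdist _ hv'
      rw [← he, Φnil] at h1
      rw [SimpleGraph.dist_self] at h1
      exact (List.length_eq_zero_iff.mp h1.symm).symm
    | cons a t ih =>
      intro l' hv hv' he
      cases l' with
      | nil =>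
        have h1 := hdist _ hv
        rw [he, Φnil] at h1
        simp at h1
      | cons b t' =>
        have d1 := hdist _ hv
        have d2 := hdist _ hv'
        have d3 := hdist _ hv.2
        have d4 := hdist _ hv'.2
        rw [List.length_cons] at d1 d2
        have a1 := hadjc a t hv
        have a2 := hadjc b t' hv'
        have hpp : Φ t = Φ t' := by
          apply parent_unique hconn hcut r a1 (by omega)
          · rw [he]; exact a2
          · rw [he]; omega
        have htt := ih t' hv.2 hv'.2 hpp
        subst htt
        rw [(hletter a b t hv hv').1 he]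
  have hsurj : ∀ k : ℕ, ∀ x : V, G.dist r x = k → ∃ l, Valid l ∧ Φ l = x := by
    intro k
    induction k with
    | zero =>
      intro x hx
      exact ⟨[], trivial, by rw [Φnil]; exact hconn.dist_eq_zero_iff.mp hx⟩
    | succ k ih =>
      intro x hx
      have hxr : x ≠ r := by
        rintro rfl
        simp at hx
      obtain ⟨p, hp1, hp2⟩ := exists_parent hconn r x hxr
      obtain ⟨t, ht1, ht2⟩ := ih p (by omega)
      subst ht2
      cases t with
      | nil =>
        rw [Φnil] at hp1
        refine ⟨[βr.symm ⟨x, hp1⟩], by simp [Valid], ?_⟩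
        rw [Φcons, List.head?_nil, Option.map_none, next_none, Equiv.apply_symm_apply]
      | cons b t' =>
        have hxx : Φ (b :: t') ≠ r := by
          intro he
          have := hdist _ ht1
          rw [he] at this
          simp at this
        set a := (βn (Φ (b :: t')) hxx b.1).symm ⟨x, hp1⟩ with ha
        have hax : (βn (Φ (b :: t')) hxx b.1 a : V) = x := by
          rw [ha, Equiv.apply_symm_apply]
        have hab : a.1 ≠ b.1 := by
          rw [hβn2 (Φ (b :: t')) hxx b.1 a, hax]
          omega
        refine ⟨a :: b :: t', ⟨?_, ht1⟩, ?_⟩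
        · intro c hc
          simp only [List.head?_cons, Option.some.injEq] at hc
          rw [← hc]; exact hab
        · rw [Φcons, List.head?_cons, Option.map_some, next_some _ _ hxx, hax]
  have hbij : Function.Bijective (fun l : {l : List (I × J) // Valid l} => Φ l.1) := by
    constructor
    · intro l l' he
      exact Subtype.ext (hinj _ _ l.2 l'.2 he)
    · intro x
      obtain ⟨l, h1, h2⟩ := hsurj _ x rfl
      exact ⟨⟨l, h1⟩, h2⟩
  refine ⟨⟨Equiv.ofBijective _ hbij, ?_⟩, ?_, ?_⟩
  · rintro ⟨l, hl⟩ ⟨l', hl'⟩
    simp only [Equiv.ofBijective_apply]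
    constructor
    · intro hadj
      have d1 := hdist _ hl
      have d2 := hdist _ hl'
      have h1 := dist_adj hconn r hadj
      have h2 := dist_adj hconn r hadj.symm
      rcases Nat.lt_trichotomy l.length l'.length with hlt | heq | hgt
      · left
        cases l' with
        | nil => simp at hlt
        | cons b t' =>
          have d4 := hdist _ hl'.2
          rw [List.length_cons] at d2 hlt
          have := parent_unique hconn hcut r hadj (by omega) (hadjc b t' hl') (by omega)
          have := hinj _ _ hl hl'.2 this
          exact ⟨b, by simp [this]⟩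
      · right; right
        cases l with
        | nil =>
          have : l' = [] := List.length_eq_zero_iff.mp heq.symm
          subst this
          exact absurd hadj (G.irrefl)
        | cons a t =>
          cases l' with
          | nil => simp at heq
          | cons b t' =>
            have d3 := hdist _ hl.2
            have d4 := hdist _ hl'.2
            simp only [List.length_cons] at d1 d2 heq
            have a1 := hadjc a t hl
            have a2 := hadjc b t' hl'
            have a3 := sib_parent hconn hcut r hadj (by omega) a1 (by omega)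
            have hpp := parent_unique hconn hcut r a3 (by omega) a2 (by omega)
            have htt := hinj _ _ hl.2 hl'.2 hpp
            subst htt
            refine ⟨a, b, t, rfl, rfl, ?_, ?_⟩
            · exact (hletter a b t hl hl').2.mpr (Or.inr hadj)
            · rintro rfl
              exact G.irrefl hadj
      · right; left
        cases l with
        | nil => simp at hgt
        | cons b t' =>
          have d4 := hdist _ hl.2
          rw [List.length_cons] at d1 hgt
          have := parent_unique hconn hcut r hadj.symm (by omega) (hadjc b t' hl) (by omega)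
          have := hinj _ _ hl' hl.2 this
          exact ⟨b, by simp [this]⟩
    · rintro (⟨a, h1⟩ | ⟨a, h1⟩ | ⟨a, b, t, h1, h2, h3, h4⟩)
      · simp only at h1
        subst h1
        exact hadjc a l hl'
      · simp only at h1
        subst h1
        exact (hadjc a l' hl).symm
      · simp only at h1 h2
        subst h1
        subst h2
        rcases (hletter a b t hl hl').2.mp h3 with h5 | h5
        · exact absurd ((hletter a b t hl hl').1 h5) h4
        · exact h5
  · exact Φnil
  · change Φ [a0] = w
    rw [Φcons, List.head?_nil, Option.map_none, next_none]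
    exact hβr0

/-- Good graphs are arc-transitive. -/
theorem arc_transitive (hG : Good G I J) (r w r' w' : V) (h : G.Adj r w) (h' : G.Adj r' w') :
    ∃ φ : G ≃g G, φ r = r' ∧ φ w = w' := by
  obtain ⟨β, -⟩ := hG.lab r
  let a0 := β.symm ⟨w, h⟩
  obtain ⟨Φ, h1, h2⟩ := exists_iso hG r w h a0
  obtain ⟨Ψ, h3, h4⟩ := exists_iso hG r' w' h' a0
  refine ⟨Φ.symm.trans Ψ, ?_, ?_⟩
  · rw [RelIso.trans_apply, ← h1, RelIso.symm_apply_apply, h3]
  · rw [RelIso.trans_apply, ← h2, RelIso.symm_apply_apply, h4]

end

end Pool.Agent.Work.MP_75f5df_co
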