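import Mathlib
import Pool.Agent.Work.MP_75f5df_co.Iso

set_option autoImplicit false

namespace Pool.Agent.Work.MP_75f5df_co

open SimpleGraph

variable {I J : Type}

open Classical in
/-- the colour of the letter following the suffix `t` in `x`, if any -/
noncomputable def side (t : List (I × J)) : List (I × J) → Option I
  | [] => none
  | (a :: x) => if x = t then some a.1 else side t x

lemma side_cons_self (t : List (I × J)) (a : I × J) : side t (a :: t) = some a.1 := by
  simp [side]

lemma side_cons_ne (t x : List (I × J)) (a : I × J) (h : x ≠ t) :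
    side t (a :: x) = side t x := by
  simp [side, h]

lemma side_short (t : List (I × J)) : ∀ x : List (I × J), x.length ≤ t.length →
    side t x = none := by
  intro x
  induction x with
  | nil => intro _; rfl
  | cons a x ih =>
    intro h
    rw [List.length_cons] at h
    rw [side_cons_ne, ih (by omega)]
    rintro rfl
    omega

lemma listG_adj (l l' : {l : List (I × J) // Valid l}) : (ListG I J).Adj l l' ↔
    ((∃ a, l'.1 = a :: l.1) ∨ (∃ a, l.1 = a :: l'.1) ∨
    (∃ a b t, l.1 = a :: t ∧ l'.1 = b :: t ∧ a.1 = b.1 ∧ a ≠ b)) := Iff.rfl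

lemma side_adj (t x y : {l : List (I × J) // Valid l}) (h : (ListG I J).Adj x y)
    (hx : t ≠ x) (hy : t ≠ y) : side t.1 x.1 = side t.1 y.1 := by
  have hx' : x.1 ≠ t.1 := fun e => hx (Subtype.ext e.symm)
  have hy' : y.1 ≠ t.1 := fun e => hy (Subtype.ext e.symm)
  rw [listG_adj] at h
  rcases h with ⟨a, h⟩ | ⟨a, h⟩ | ⟨a, b, z, h1, h2, h3, h4⟩
  · rw [h, side_cons_ne _ _ _ hx']
  · rw [h, side_cons_ne _ _ _ hy']
  · rw [h1, h2]
    by_cases hz : z = t.1
    · subst hz
      rw [side_cons_self, side_cons_self, h3]
    · rw [side_cons_ne _ _ _ hz, side_cons_ne _ _ _ hz]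

lemma side_av (t x y : {l : List (I × J) // Valid l}) (h : Av (ListG I J) t x y) :
    side t.1 x.1 = side t.1 y.1 := by
  obtain ⟨p, hp⟩ := h
  induction p with
  | nil => rfl
  | @cons a b c h q ih =>
    rw [Walk.support_cons, List.mem_cons, not_or] at hp
    have hb : t ≠ b := by
      rintro rfl
      exact hp.2 q.start_mem_support
    rw [side_adj t a b h hp.1 hb, ih hp.2]

lemma listG_cut : CutProp (ListG I J) := by
  intro v w w' h h' hav
  have hs := side_av v w w' hav
  rw [listG_adj] at h h'
  have eq_or_adj : ∀ (a a' : I × J) (z : List (I × J)), w.1 = a :: z → w'.1 = a' :: z →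
      a.1 = a'.1 → w = w' ∨ (ListG I J).Adj w w' := by
    intro a a' z h1 h2 h3
    by_cases haa : a = a'
    · left; apply Subtype.ext; rw [h1, h2, haa]
    · right; rw [listG_adj]; right; right
      exact ⟨a, a', z, h1, h2, h3, haa⟩
  rcases h with ⟨a, h⟩ | ⟨a, h⟩ | ⟨a, b, z, h1, h2, h3, h4⟩ <;>
  rcases h' with ⟨a', h'⟩ | ⟨a', h'⟩ | ⟨a', b', z', h1', h2', h3', h4'⟩
  · -- child child
    rw [h, h', side_cons_self, side_cons_self] at hs
    exact eq_or_adj a a' v.1 h h' (Option.some.inj hs)
  · -- child parent
    rw [h, side_cons_self, side_short] at hs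
    · cases hs
    · rw [h', List.length_cons]; omega
  · -- child sibling
    rw [h, side_cons_self, side_short] at hs
    · cases hs
    · rw [h2', h1']; simp
  · rw [h', side_cons_self, side_short] at hs
    · cases hs
    · rw [h, List.length_cons]; omega
  · rw [h] at h'
    left; apply Subtype.ext
    exact (List.cons.inj h').2
  · -- parent sibling
    rw [h] at h1'
    have := (List.cons.inj h1').2
    right; rw [listG_adj]; left
    exact ⟨b', by rw [h2', this]⟩
  · rw [h', side_cons_self, side_short] at hs
    · cases hs
    · rw [h2, h1]; simp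
  · rw [h'] at h1
    have := (List.cons.inj h1).2
    right; rw [listG_adj]; right; left
    exact ⟨b, by rw [h2, this]⟩
  · rw [h1] at h1'
    obtain ⟨e1, e2⟩ := List.cons.inj h1'
    subst e2
    exact eq_or_adj b b' z h2 h2' (by rw [← h3, ← h3', e1])

lemma listG_conn : (ListG I J).Connected := by
  have key : ∀ (l : List (I × J)) (hl : Valid l),
      (ListG I J).Reachable ⟨[], trivial⟩ ⟨l, hl⟩ := by
    intro l
    induction l with
    | nil => intro hl; exact Reachable.refl _
    | cons a t ih =>
      intro hl
      refine (ih hl.2).trans ?_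
      apply Adj.reachable
      rw [listG_adj]
      exact Or.inl ⟨a, rfl⟩
  have : Nonempty {l : List (I × J) // Valid l} := ⟨⟨[], trivial⟩⟩
  exact ⟨fun u v => (key u.1 u.2).symm.trans (key v.1 v.2)⟩

lemma listG_lab (v : {l : List (I × J) // Valid l}) :
    ∃ β : I × J ≃ (ListG I J).neighborSet v,
    ∀ a b, a.1 = b.1 ↔ ((β a : {l : List (I × J) // Valid l}) = β b ∨
      (ListG I J).Adj (β a) (β b)) := by
  classical
  obtain ⟨l, hl⟩ := v
  cases l with
  | nil =>
    let g : I × J → (ListG I J).neighborSet ⟨[], hl⟩ := fun a =>
      ⟨⟨[a], by simp [Valid]⟩, by rw [mem_neighborSet, listG_adj]; exact Or.inl ⟨a, rfl⟩⟩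
    have hg : Function.Bijective g := by
      constructor
      · intro a b h
        have h1 : [a] = [b] := congrArg (fun x => x.1.1) h
        exact (List.cons.inj h1).1
      · rintro ⟨w, hw⟩
        rw [mem_neighborSet, listG_adj] at hw
        rcases hw with ⟨a, h⟩ | ⟨a, h⟩ | ⟨a, b, z, h1, h2, h3, h4⟩
        · exact ⟨a, Subtype.ext (Subtype.ext h.symm)⟩
        · cases h
        · cases h1
    refine ⟨Equiv.ofBijective g hg, ?_⟩
    intro a b
    simp only [Equiv.ofBijective_apply]
    constructor
    · intro h
      by_cases hab : a = b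
      · left; rw [hab]
      · right; rw [listG_adj]; right; right
        exact ⟨a, b, [], rfl, rfl, h, hab⟩
    · rintro (h | h)
      · have h1 : [a] = [b] := congrArg (fun x => x.1) h
        rw [(List.cons.inj h1).1]
      · rw [listG_adj] at h
        rcases h with ⟨c, h⟩ | ⟨c, h⟩ | ⟨c, d, z, h1, h2, h3, h4⟩
        · have := congrArg List.length h
          simp [g] at this
        · have := congrArg List.length h
          simp [g] at this
        · have e1 := (List.cons.inj (show a :: [] = c :: z from h1)).1
          have e2 := (List.cons.inj (show b :: [] = d :: z from h2)).1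
          rw [e1, e2, h3]
  | cons b t =>
    have hval : ∀ a : I × J, a.1 ≠ b.1 → Valid (a :: b :: t) := by
      intro a ha
      refine ⟨?_, hl⟩
      intro c hc
      simp only [List.head?_cons, Option.some.injEq] at hc
      rw [← hc]; exact ha
    have hval2 : ∀ j : J, Valid ((b.1, j) :: t) := by
      intro j
      exact ⟨fun c hc => hl.1 c hc, hl.2⟩
    let g : I × J → {l : List (I × J) // Valid l} := fun a =>
      if h : a.1 = b.1 then
        (if a.2 = b.2 then ⟨t, hl.2⟩ else ⟨(b.1, a.2) :: t, hval2 a.2⟩)
      else ⟨a :: b :: t, hval a h⟩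
    have g1 : ∀ a : I × J, a.1 = b.1 → a.2 = b.2 → (g a).1 = t := by
      intro a h h'; simp [g, h, h']
    have g2 : ∀ a : I × J, a.1 = b.1 → a.2 ≠ b.2 → (g a).1 = (b.1, a.2) :: t := by
      intro a h h'; simp [g, h, h']
    have g3 : ∀ a : I × J, a.1 ≠ b.1 → (g a).1 = a :: b :: t := by
      intro a h; simp [g, h]
    have hadj : ∀ a, (ListG I J).Adj ⟨b :: t, hl⟩ (g a) := by
      intro a
      rw [listG_adj]
      by_cases h : a.1 = b.1
      · by_cases h' : a.2 = b.2
        · right; left; exact ⟨b, by rw [g1 a h h']⟩
        · right; right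
          refine ⟨b, (b.1, a.2), t, rfl, g2 a h h', rfl, ?_⟩
          intro e
          exact h' (congrArg Prod.snd e).symm
      · left; exact ⟨a, g3 a h⟩
    have hinj : Function.Injective g := by
      intro a a' he
      have he' : (g a).1 = (g a').1 := congrArg Subtype.val he
      by_cases h : a.1 = b.1 <;> by_cases h' : a'.1 = b.1
      · by_cases k : a.2 = b.2 <;> by_cases k' : a'.2 = b.2
        · exact Prod.ext (h.trans h'.symm) (k.trans k'.symm)
        · rw [g1 a h k, g2 a' h' k'] at he'
          have := congrArg List.length he'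
          simp at this
        · rw [g2 a h k, g1 a' h' k'] at he'
          have := congrArg List.length he'
          simp at this
        · rw [g2 a h k, g2 a' h' k'] at he'
          have := (List.cons.inj he').1
          exact Prod.ext (h.trans h'.symm) (Prod.mk.inj this).2
      · by_cases k : a.2 = b.2
        · rw [g1 a h k, g3 a' h'] at he'
          have := congrArg List.length he'
          simp at this
          omega
        · rw [g2 a h k, g3 a' h'] at he'
          have := congrArg List.length he'
          simp at this
      · by_cases k' : a'.2 = b.2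
        · rw [g3 a h, g1 a' h' k'] at he'
          have := congrArg List.length he'
          simp at this
          omega
        · rw [g3 a h, g2 a' h' k'] at he'
          have := congrArg List.length he'
          simp at this
      · rw [g3 a h, g3 a' h'] at he'
        exact (List.cons.inj he').1
    let g' : I × J → (ListG I J).neighborSet ⟨b :: t, hl⟩ := fun a => ⟨g a, hadj a⟩
    have hg : Function.Bijective g' := by
      constructor
      · intro a a' he
        exact hinj (congrArg Subtype.val he)
      · rintro ⟨w, hw⟩
        rw [mem_neighborSet, listG_adj] at hw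
        rcases hw with ⟨a, h⟩ | ⟨a, h⟩ | ⟨a, c, z, h1, h2, h3, h4⟩
        · have hv := w.2
          rw [h] at hv
          have hne : a.1 ≠ b.1 := hv.1 b rfl
          refine ⟨a, Subtype.ext (Subtype.ext ?_)⟩
          change (g a).1 = w.1
          rw [g3 a hne, h]
        · refine ⟨b, Subtype.ext (Subtype.ext ?_)⟩
          change (g b).1 = w.1
          rw [g1 b rfl rfl]
          exact (List.cons.inj h).2
        · obtain ⟨e1, e2⟩ := List.cons.inj h1
          subst e1
          subst e2
          refine ⟨c, Subtype.ext (Subtype.ext ?_)⟩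
          change (g c).1 = w.1
          have hc2 : c.2 ≠ b.2 := by
            intro e
            exact h4 (Prod.ext h3 e.symm)
          rw [g2 c h3.symm hc2, h2]
          congr 1
          exact Prod.ext h3 rfl
    refine ⟨Equiv.ofBijective g' hg, ?_⟩
    intro a a'
    simp only [Equiv.ofBijective_apply]
    change a.1 = a'.1 ↔ (g a = g a' ∨ (ListG I J).Adj (g a) (g a'))
    constructor
    · intro haa
      by_cases heq : a = a'
      · left; rw [heq]
      have hne2 : a.2 ≠ a'.2 := fun e => heq (Prod.ext haa e)
      right
      rw [listG_adj]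
      by_cases h : a.1 = b.1
      · have h' : a'.1 = b.1 := haa.symm.trans h
        by_cases k : a.2 = b.2 <;> by_cases k' : a'.2 = b.2
        · exact absurd (k.trans k'.symm) hne2
        · left; exact ⟨(b.1, a'.2), by rw [g1 a h k, g2 a' h' k']⟩
        · right; left; exact ⟨(b.1, a.2), by rw [g2 a h k, g1 a' h' k']⟩
        · right; right
          refine ⟨(b.1, a.2), (b.1, a'.2), t, g2 a h k, g2 a' h' k', rfl, ?_⟩
          intro e
          exact hne2 (Prod.mk.inj e).2
      · have h' : a'.1 ≠ b.1 := fun e => h (haa.trans e)
        right; right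
        exact ⟨a, a', b :: t, g3 a h, g3 a' h', haa, heq⟩
    · rintro (h | h)
      · rw [hinj h]
      · -- use the side function at `b :: t`
        have hne1 : (⟨b :: t, hl⟩ : {l : List (I × J) // Valid l}) ≠ g a := (hadj a).ne
        have hne2 : (⟨b :: t, hl⟩ : {l : List (I × J) // Valid l}) ≠ g a' := (hadj a').ne
        have hs := side_adj ⟨b :: t, hl⟩ (g a) (g a') h hne1 hne2
        have s1 : ∀ a : I × J, a.1 = b.1 → side (b :: t) (g a).1 = none := by
          intro a ha
          apply side_short
          by_cases k : a.2 = b.2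
          · rw [g1 a ha k]; simp
          · rw [g2 a ha k]; simp
        have s2 : ∀ a : I × J, a.1 ≠ b.1 → side (b :: t) (g a).1 = some a.1 := by
          intro a ha
          rw [g3 a ha, side_cons_self]
        simp only at hs
        by_cases h1 : a.1 = b.1 <;> by_cases h2 : a'.1 = b.1
        · exact h1.trans h2.symm
        · rw [s1 a h1, s2 a' h2] at hs; cases hs
        · rw [s2 a h1, s1 a' h2] at hs; cases hs
        · rw [s2 a h1, s2 a' h2] at hs; exact Option.some.inj hs

theorem listG_good : Good (ListG I J) I J := ⟨listG_conn, listG_cut, listG_lab⟩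

end Pool.Agent.Work.MP_75f5df_co
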