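import Mathlib
import Pool.Agent.Work.MP_75f5df_co.Defs
import Pool.Agent.Work.MP_75f5df_co.Iso

set_option autoImplicit false

namespace Pool.Agent.Work.MP_75f5df_co

open SimpleGraph MeasureTheory

variable {V : Type}

/-- The compact space: all consistent choices of sides. -/
def XSet (G : SimpleGraph V) : Set (V → V → Bool) :=
  {φ | (∀ v w w', G.Adj v w → G.Adj v w' → G.Adj w w' → φ v w = φ v w') ∧
    (∀ v w w', G.Adj v w → G.Adj v w' → w ≠ w' → ¬ G.Adj w w' →
      ¬ (φ v w = true ∧ φ v w' = true)) ∧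
    (∀ v w, G.Adj v w → (φ v w = true ∨ φ w v = true))}

lemma isClosed_XSet (G : SimpleGraph V) : IsClosed (XSet G) := by
  have e : XSet G = (⋂ v, ⋂ w, ⋂ w', {φ : V → V → Bool | G.Adj v w → G.Adj v w' → G.Adj w w' →
      φ v w = φ v w'}) ∩ ((⋂ v, ⋂ w, ⋂ w', {φ : V → V → Bool | G.Adj v w → G.Adj v w' → w ≠ w' →
      ¬ G.Adj w w' → ¬ (φ v w = true ∧ φ v w' = true)}) ∩
      (⋂ v, ⋂ w, {φ : V → V → Bool | G.Adj v w → (φ v w = true ∨ φ w v = true)})) := by
    ext φ
    simp only [XSet, Set.mem_ofPred_eq, Set.mem_inter_iff, Set.mem_iInter]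
  rw [e]
  have hc : ∀ v w, Continuous (fun φ : V → V → Bool => φ v w) := fun v w =>
    (continuous_apply w).comp (continuous_apply v)
  refine IsClosed.inter ?_ (IsClosed.inter ?_ ?_)
  · refine isClosed_iInter fun v => isClosed_iInter fun w => isClosed_iInter fun w' => ?_
    exact (isClosed_discrete {b : Bool × Bool | G.Adj v w → G.Adj v w' → G.Adj w w' →
      b.1 = b.2}).preimage ((hc v w).prodMk (hc v w'))
  · refine isClosed_iInter fun v => isClosed_iInter fun w => isClosed_iInter fun w' => ?_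
    exact (isClosed_discrete {b : Bool × Bool | G.Adj v w → G.Adj v w' → w ≠ w' →
      ¬ G.Adj w w' → ¬ (b.1 = true ∧ b.2 = true)}).preimage ((hc v w).prodMk (hc v w'))
  · refine isClosed_iInter fun v => isClosed_iInter fun w => ?_
    exact (isClosed_discrete {b : Bool × Bool | G.Adj v w →
      (b.1 = true ∨ b.2 = true)}).preimage ((hc v w).prodMk (hc w v))

open Classical in
/-- the point of the compact space given by a vertex -/
noncomputable def pt (G : SimpleGraph V) (x : V) : V → V → Bool := fun v w => decide (Av G v x w)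

lemma pt_mem {G : SimpleGraph V} (hc : G.Connected) (hA : CutProp G) (x : V) :
    pt G x ∈ XSet G := by
  classical
  refine ⟨?_, ?_, ?_⟩
  · intro v w w' h h' hww
    have : Av G v x w ↔ Av G v x w' :=
      ⟨fun k => k.trans (Av.adj hww h.ne h'.ne), fun k => k.trans (Av.adj hww.symm h'.ne h.ne)⟩
    simp only [pt, this]
  · rintro v w w' h h' hne hnadj ⟨h1, h2⟩
    simp only [pt, decide_eq_true_eq] at h1 h2
    rcases hA v w w' h h' (h1.symm.trans h2) with h3 | h3
    · exact hne h3
    · exact hnadj h3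
  · intro v w h
    simp only [pt, decide_eq_true_eq]
    rcases Nat.le_total (G.dist x w) (G.dist x v) with hd | hd
    · left
      exact (avoid hc x _ w rfl v hd h.ne).symm
    · right
      exact (avoid hc x _ v rfl w hd h.ne').symm

instance instActX (G : SimpleGraph V) : MulAction (G ≃g G) (XSet G) where
  smul g φ := ⟨fun v w => φ.1 (g.symm v) (g.symm w), by
    obtain ⟨h1, h2, h3⟩ := φ.2
    have adj : ∀ v w, G.Adj v w → G.Adj (g.symm v) (g.symm w) := fun v w h =>
      g.symm.map_adj_iff.mpr h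
    refine ⟨?_, ?_, ?_⟩
    · intro v w w' a b c
      exact h1 _ _ _ (adj _ _ a) (adj _ _ b) (adj _ _ c)
    · intro v w w' a b c d
      refine h2 _ _ _ (adj _ _ a) (adj _ _ b) (g.symm.injective.ne c) ?_
      intro hh
      exact d (g.symm.map_adj_iff.mp hh)
    · intro v w a
      exact h3 _ _ (adj _ _ a)⟩
  one_smul φ := by
    apply Subtype.ext
    rfl
  mul_smul g h φ := by
    apply Subtype.ext
    rfl

lemma smul_apply (G : SimpleGraph V) (g : G ≃g G) (φ : XSet G) (v w : V) :
    (g • φ).1 v w = φ.1 (g.symm v) (g.symm w) := rfl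

lemma cont_coord (G : SimpleGraph V) (a c : V) : Continuous (fun φ : XSet G => φ.1 a c) := by
  have h0 : Continuous (fun φ : V → V → Bool => φ a c) :=
    (continuous_apply c).comp (continuous_apply a)
  exact h0.comp continuous_subtype_val

lemma continuousSMul_X (G : SimpleGraph V) :
    @ContinuousSMul (G ≃g G) (XSet G) _ (autTopology G) _ := by
  let _ : TopologicalSpace (G ≃g G) := autTopology G
  refine ⟨?_⟩
  refine Continuous.subtype_mk ?_ _
  refine continuous_pi fun v => continuous_pi fun w => ?_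
  rw [continuous_discrete_rng]
  intro b
  have hev : ∀ a c : V, IsOpen {g : G ≃g G | g a = c} := by
    intro a c
    let _ : TopologicalSpace V := ⊥
    have : DiscreteTopology V := ⟨rfl⟩
    have h1 : Continuous (fun (g : G ≃g G) (v : V) => g v) := continuous_induced_dom
    have h2 : Continuous (fun (g : G ≃g G) => g a) := (continuous_apply a).comp h1
    exact (isOpen_discrete ({c} : Set V)).preimage h2
  have e : (fun p : (G ≃g G) × XSet G => p.2.1 (p.1.symm v) (p.1.symm w)) ⁻¹' {b} =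
      ⋃ a : V, ⋃ c : V, ({g : G ≃g G | g a = v} ∩ {g : G ≃g G | g c = w}) ×ˢ
        {φ : XSet G | φ.1 a c = b} := by
    ext ⟨g, φ⟩
    simp only [Set.mem_preimage, Set.mem_singleton_iff, Set.mem_iUnion, Set.mem_prod,
      Set.mem_inter_iff, Set.mem_ofPred_eq]
    constructor
    · intro h
      exact ⟨g.symm v, g.symm w, ⟨by simp, by simp⟩, h⟩
    · rintro ⟨a, c, ⟨h1, h2⟩, h3⟩
      subst h1
      subst h2
      simpa using h3
  change IsOpen ((fun p : (G ≃g G) × XSet G => p.2.1 (p.1.symm v) (p.1.symm w)) ⁻¹' {b})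
  rw [e]
  refine isOpen_iUnion fun a => isOpen_iUnion fun c => ?_
  refine ((hev a v).inter (hev c w)).prod ?_
  exact (isOpen_discrete ({b} : Set Bool)).preimage (cont_coord G a c)

theorem not_amenable_of_good {G : SimpleGraph V} {I J : Type} (hG : Good G I J)
    (v0 : V) (i1 i2 : I) (j1 : J) (hi : i1 ≠ i2)
    (h : (∃ i3 : I, i3 ≠ i1 ∧ i3 ≠ i2) ∨ (∃ j2 : J, j2 ≠ j1)) :
    ¬ @IsAmenable (G ≃g G) _ (autTopology G) := by
  intro hamen
  let _ : TopologicalSpace (G ≃g G) := autTopology G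
  have : ContinuousSMul (G ≃g G) (XSet G) := continuousSMul_X G
  have : CompactSpace (XSet G) := isCompact_iff_compactSpace.mp (isClosed_XSet G).isCompact
  have : Nonempty (XSet G) := ⟨⟨pt G v0, pt_mem hG.conn hG.cut v0⟩⟩
  let _ : MeasurableSpace (XSet G) := borel _
  have : BorelSpace (XSet G) := ⟨rfl⟩
  obtain ⟨μ, hμ, hinv⟩ := hamen (XSet G)
  let E : V → V → Set (XSet G) := fun v w => {φ | φ.1 v w = true}
  have hEm : ∀ v w, MeasurableSet (E v w) := by
    intro v w
    exact ((isOpen_discrete ({true} : Set Bool)).preimage (cont_coord G v w)).measurableSet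
  have hEg : ∀ (g : G ≃g G) v w, μ.real (E (g v) (g w)) = μ.real (E v w) := by
    intro g v w
    have hm : Measurable (fun x : XSet G => g • x) :=
      (continuous_const_smul g).measurable
    have h1 : μ (E (g v) (g w)) = μ (E v w) := by
      conv_lhs => rw [← hinv g]
      rw [Measure.map_apply hm (hEm _ _)]
      congr 1
      ext φ
      simp only [E, Set.mem_preimage, Set.mem_ofPred_eq]
      rw [smul_apply]
      simp
    simp only [measureReal_def, h1]
  obtain ⟨β, hβ⟩ := hG.lab v0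
  have hadj0 : ∀ a, G.Adj v0 (β a) := fun a => (β a).2
  set p := μ.real (E v0 (β (i1, j1))) with hp
  have hconst : ∀ v w, G.Adj v w → μ.real (E v w) = p := by
    intro v w hvw
    obtain ⟨g, hg1, hg2⟩ := arc_transitive hG v0 (β (i1, j1)) v w (hadj0 _) hvw
    rw [← hg1, ← hg2, hEg]
  have hle1 : ∀ s : Set (XSet G), μ.real s ≤ 1 := fun s => measureReal_le_one
  -- 1 ≤ 2p
  have hcover : 1 ≤ p + p := by
    have a0 := hadj0 (i1, j1)
    have h1 : E v0 (β (i1, j1)) ∪ E (β (i1, j1)) v0 = Set.univ := by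
      ext φ
      simp only [E, Set.mem_union, Set.mem_ofPred_eq, Set.mem_univ, iff_true]
      exact φ.2.2.2 _ _ a0
    have h2 := measureReal_union_le (μ := μ) (E v0 (β (i1, j1))) (E (β (i1, j1)) v0)
    rw [h1, probReal_univ, hconst _ _ a0, hconst _ _ a0.symm] at h2
    exact h2
  have hdisj : ∀ w w', G.Adj v0 w → G.Adj v0 w' → w ≠ w' → ¬ G.Adj w w' →
      Disjoint (E v0 w) (E v0 w') := by
    intro w w' h1 h2 h3 h4
    rw [Set.disjoint_left]
    intro φ ha hb
    exact φ.2.2.1 _ _ _ h1 h2 h3 h4 ⟨ha, hb⟩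
  have hcol : ∀ i i' : I, i ≠ i' → Disjoint (E v0 (β (i, j1))) (E v0 (β (i', j1))) := by
    intro i i' hii
    have := (hβ (i, j1) (i', j1)).not.mp hii
    rw [not_or] at this
    exact hdisj _ _ (hadj0 _) (hadj0 _) this.1 this.2
  have h2p : p + p ≤ 1 := by
    have h1 := measureReal_union (μ := μ) (hcol i1 i2 hi) (hEm v0 (β (i2, j1)))
    rw [hconst _ _ (hadj0 _), hconst _ _ (hadj0 _)] at h1
    rw [← h1]
    exact hle1 _
  rcases h with ⟨i3, h31, h32⟩ | ⟨j2, hj⟩
  · have h1 := measureReal_union (μ := μ) (hcol i1 i2 hi) (hEm v0 (β (i2, j1)))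
    have h2 : Disjoint (E v0 (β (i1, j1)) ∪ E v0 (β (i2, j1))) (E v0 (β (i3, j1))) := by
      rw [Set.disjoint_union_left]
      exact ⟨hcol _ _ h31.symm, hcol _ _ h32.symm⟩
    have h3 := measureReal_union (μ := μ) h2 (hEm v0 (β (i3, j1)))
    rw [h1, hconst _ _ (hadj0 _), hconst _ _ (hadj0 _), hconst _ _ (hadj0 _)] at h3
    have h4 := hle1 (E v0 (β (i1, j1)) ∪ E v0 (β (i2, j1)) ∪ E v0 (β (i3, j1)))
    rw [h3] at h4
    linarith
  · -- a triangle v0, w1, w2
    set w1 : V := (β (i1, j1)).1 with hw1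
    set w2 : V := (β (i1, j2)).1 with hw2
    have a1 : G.Adj v0 w1 := hadj0 _
    have a2 : G.Adj v0 w2 := hadj0 _
    have a12 : G.Adj w1 w2 := by
      rcases (hβ (i1, j1) (i1, j2)).mp rfl with h1 | h1
      · exfalso
        have := β.injective (Subtype.ext h1)
        exact hj (Prod.mk.inj this).2.symm
      · exact h1
    have F : ∀ x y z, G.Adj x y → G.Adj y z → G.Adj z x →
        Disjoint (E x y)ᶜ (E y z)ᶜ := by
      intro x y z hxy hyz hzx
      rw [Set.disjoint_left]
      intro φ ha hb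
      simp only [E, Set.mem_compl_iff, Set.mem_ofPred_eq, Bool.not_eq_true] at ha hb
      have e1 := φ.2.1 y z x hyz hxy.symm hzx
      rcases φ.2.2.2 x y hxy with h1 | h1
      · rw [ha] at h1; cases h1
      · rw [← e1, hb] at h1; cases h1
    have hcompl : ∀ x y, G.Adj x y → μ.real (E x y)ᶜ = 1 - p := by
      intro x y hxy
      rw [probReal_compl_eq_one_sub (hEm x y), hconst x y hxy]
    have d1 := F v0 w1 w2 a1 a12 a2.symm
    have d2 := F w1 w2 v0 a12 a2.symm a1
    have d3 := F w2 v0 w1 a2.symm a1 a12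
    have h1 := measureReal_union (μ := μ) d1 (hEm w1 w2).compl
    have h2 : Disjoint ((E v0 w1)ᶜ ∪ (E w1 w2)ᶜ) (E w2 v0)ᶜ := by
      rw [Set.disjoint_union_left]
      exact ⟨d3.symm, d2⟩
    have h3 := measureReal_union (μ := μ) h2 (hEm w2 v0).compl
    rw [h1, hcompl _ _ a1, hcompl _ _ a12, hcompl _ _ a2.symm] at h3
    have h4 := hle1 ((E v0 w1)ᶜ ∪ (E w1 w2)ᶜ ∪ (E w2 v0)ᶜ)
    rw [h3] at h4
    linarith

end Pool.Agent.Work.MP_75f5df_co
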